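import Pool.Agent.H.MP_340332_ag.D

namespace Pool.Agent.Results.MP_37b72a_ag.No
open Polynomial Pool.Agent.H.MP_340332_ag

universe u

theorem result (K : Type u) [Field K] [IsAlgClosed K] [CharZero K] :
    ∃ (A : Type u) (_ : CommRing A) (_ : Algebra K A),
      IsDomain A ∧ Algebra.FiniteType K A ∧ HD K A[X] = ⊤ ∧ imI K A ≠ ⊤ := by
  let x : LaurentPolynomial K := LaurentPolynomial.T 1 - 1
  have hm : x ^ 2 ≠ 0 := by
    intro h
    have := congrArg (evL (IsUnit.mk0 (2 : K) two_ne_zero)) h
    simp only [x, map_sub, map_pow, evL_T, map_one, map_zero] at this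
    norm_num at this
  have hx : evL (isUnit_one (M := K)) x = 0 := by simp [x]
  refine ⟨Q (x ^ 2) x, inferInstance, inferInstance, dom hm, finT _ _, ?_, fun h => ?_⟩
  · set B := (Q (x ^ 2) x)[X]
    set x' : B := algebraMap _ _ x with hx'
    set Y : B := C (yy _ _) with hY
    set Z : B := C (zz _ _) with hZ
    have h1 : ∀ c : B, (∀ i : ℕ, c * X ^ i ∈ HD K B) → ∀ b, b * c ∈ HD K B := by
      intro c hc b
      induction b using Polynomial.induction_on' with
      | add p q hp hq => rw [add_mul]; exact add_mem hp hq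
      | monomial n a =>
        rw [← C_mul_X_pow_eq_monomial, mul_assoc, mul_comm _ c]
        exact mul_mem (C_mem_HD a) (hc n)
    have h2 := h1 Y (y_mem K hm)
    have h3 := h1 x' fun i => by
      have := sub_mem (h2 (X ^ i * Y)) (mul_mem (C_mem_HD (zz _ _)) (m_mem K hm i))
      convert this using 1
      have r := relP (m := x ^ 2) (e := x)
      linear_combination (-X ^ i) * r
    have h4 := psi_mem K (a := 1) (x := x) (c := 1) hm (one_mul _).symm (by ring) 1 Z Y X _ _ x' 1
      (map_one _).symm rfl (map_one _).symm rfl rfl rfl rfl rfl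
    generalize hw : (Z + _ + _ : B) = w at h4
    have h5 : w - Z + 4 * X ∈ Ideal.span {x', Y} := by
      rw [← Ideal.Quotient.eq_zero_iff_mem, ← hw]
      have e1 : Ideal.Quotient.mk (Ideal.span {x', Y}) x' = 0 :=
        Ideal.Quotient.eq_zero_iff_mem.2 (Ideal.subset_span (by simp))
      have e2 : Ideal.Quotient.mk (Ideal.span {x', Y}) Y = 0 :=
        Ideal.Quotient.eq_zero_iff_mem.2 (Ideal.subset_span (by simp))
      simp only [map_add, map_sub, map_mul, map_pow, map_one, map_ofNat, e1, e2]
      ring
    obtain ⟨b1, b2, h6⟩ := Ideal.mem_span_pair.1 h5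
    have h7 : (X : B) ∈ HD K B := by
      have := Subalgebra.smul_mem _ (add_mem (sub_mem (add_mem (h3 b1) (h2 b2)) h4)
        (C_mem_HD (zz _ _))) (4⁻¹ : K)
      convert this using 1
      rw [eq_comm, inv_smul_eq_iff₀ (by norm_num), h6, Algebra.smul_def, map_ofNat]; ring
    exact eq_top_iff.2 fun b _ => by
      simpa using h1 1 (fun i => by simpa using pow_mem h7 i) b
  · have := imI_le hm (mkQ (e := x) (evL (isUnit_one (M := K))) 0 0 (by simp [hx]))
      (by simp [hx]) (by simp)
    rw [h] at this
    simpa using this (Submodule.mem_top (x := 1))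

end Pool.Agent.Results.MP_37b72a_ag.No
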